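import Mathlib

/-! # Sums of a function with `g(n P) = - g(P)` over the points of a translated lattice (helper80) -/

set_option autoImplicit false

open Finset

namespace Pool.Agent.Helper80.OD

/-- Liouville's function on the integers: `(-1) ^ Ω(|m|)`, and `0` at `0`. -/
def lam (m : ℤ) : ℤ := if m = 0 then 0 else (-1) ^ ArithmeticFunction.cardFactors m.natAbs

lemma lam_mul (a b : ℤ) : lam (a * b) = lam a * lam b := by
  unfold lam
  by_cases ha : a = 0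
  · simp [ha]
  by_cases hb : b = 0
  · simp [hb]
  have hab : a * b ≠ 0 := mul_ne_zero ha hb
  simp only [ha, hb, hab, if_false]
  rw [Int.natAbs_mul, ArithmeticFunction.cardFactors_mul (by simpa using ha) (by simpa using hb), pow_add]

lemma lam_abs_le (m : ℤ) : |lam m| ≤ 1 := by
  unfold lam
  split_ifs
  · simp
  · rw [abs_pow, abs_neg, abs_one, one_pow]

lemma lam_one : lam 1 = 1 := by simp [lam]

lemma lam_pow (a : ℤ) (k : ℕ) : lam (a ^ k) = lam a ^ k := by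
  induction k with
  | zero => simp [lam_one]
  | succ k ih => rw [pow_succ, lam_mul, ih, pow_succ]

/-- The integer points `(u, v)` with `|u| ≤ X`, `|v| ≤ X`, `u ≡ a`, `v ≡ b` modulo `N`. -/
noncomputable def pts (N : ℕ) (a b : ℤ) (X : ℕ) : Finset (ℤ × ℤ) :=
  (Icc (-(X : ℤ)) X ×ˢ Icc (-(X : ℤ)) X).filter (fun P => P.1 ≡ a [ZMOD N] ∧ P.2 ≡ b [ZMOD N])

lemma mem_pts {N : ℕ} {a b : ℤ} {X : ℕ} {P : ℤ × ℤ} : P ∈ pts N a b X ↔
    (|P.1| ≤ X ∧ |P.2| ≤ X) ∧ P.1 ≡ a [ZMOD N] ∧ P.2 ≡ b [ZMOD N] := by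
  simp only [pts, mem_filter, mem_product, mem_Icc, abs_le]

lemma pts_mono {N : ℕ} {a b : ℤ} {X Y : ℕ} (h : X ≤ Y) : pts N a b X ⊆ pts N a b Y := by
  intro P hP
  rw [mem_pts] at hP ⊢
  have h' : (X : ℤ) ≤ Y := by exact_mod_cast h
  exact ⟨⟨hP.1.1.trans h', hP.1.2.trans h'⟩, hP.2⟩

/-- points of the translated lattice divisible by `n` -/
noncomputable def dpts (n N : ℕ) (a b : ℤ) (X : ℕ) : Finset (ℤ × ℤ) :=
  (pts N a b X).filter (fun P => (n : ℤ) ∣ P.1 ∧ (n : ℤ) ∣ P.2)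

/-- points of the translated lattice not divisible by `n` -/
noncomputable def bpts (n N : ℕ) (a b : ℤ) (X : ℕ) : Finset (ℤ × ℤ) :=
  (pts N a b X).filter (fun P => ¬ ((n : ℤ) ∣ P.1 ∧ (n : ℤ) ∣ P.2))

lemma abs_mul_le_iff {n X : ℕ} (hn : 0 < n) (u : ℤ) : |(n : ℤ) * u| ≤ X ↔ |u| ≤ (X / n : ℕ) := by
  rw [abs_mul, Nat.abs_cast]
  have h1 : |u| = (u.natAbs : ℤ) := by rw [Int.natCast_natAbs]
  rw [h1]
  norm_cast
  rw [Nat.le_div_iff_mul_le hn, mul_comm]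

lemma dpts_eq {n N : ℕ} (hn : 0 < n) (hnN : (n : ℤ) ≡ 1 [ZMOD N]) (a b : ℤ) (X : ℕ) :
    dpts n N a b X = (pts N a b (X / n)).image (fun P => ((n : ℤ) * P.1, (n : ℤ) * P.2)) := by
  have key : ∀ u c : ℤ, (n : ℤ) * u ≡ c [ZMOD N] ↔ u ≡ c [ZMOD N] := by
    intro u c
    have h1 : (n : ℤ) * u ≡ u [ZMOD N] := by simpa using hnN.mul_right u
    exact ⟨fun h => h1.symm.trans h, fun h => h1.trans h⟩
  ext P
  simp only [dpts, mem_filter, mem_image, mem_pts]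
  constructor
  · rintro ⟨⟨⟨h1, h2⟩, h3, h4⟩, ⟨u, hu⟩, ⟨v, hv⟩⟩
    refine ⟨(u, v), ?_, Prod.ext hu.symm hv.symm⟩
    rw [hu] at h1 h3
    rw [hv] at h2 h4
    exact ⟨⟨(abs_mul_le_iff hn u).1 h1, (abs_mul_le_iff hn v).1 h2⟩, (key u a).1 h3, (key v b).1 h4⟩
  · rintro ⟨Q, ⟨⟨h1, h2⟩, h3, h4⟩, rfl⟩
    exact ⟨⟨⟨(abs_mul_le_iff hn _).2 h1, (abs_mul_le_iff hn _).2 h2⟩, (key _ a).2 h3, (key _ b).2 h4⟩,
      Dvd.intro _ rfl, Dvd.intro _ rfl⟩

lemma inj_mul {n : ℕ} (hn : 0 < n) : Function.Injective (fun P : ℤ × ℤ => ((n : ℤ) * P.1, (n : ℤ) * P.2)) := by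
  intro P Q h
  have hn' : (n : ℤ) ≠ 0 := by exact_mod_cast hn.ne'
  simp only [Prod.mk.injEq] at h
  exact Prod.ext (mul_left_cancel₀ hn' h.1) (mul_left_cancel₀ hn' h.2)

lemma card_dpts {n N : ℕ} (hn : 0 < n) (hnN : (n : ℤ) ≡ 1 [ZMOD N]) (a b : ℤ) (X : ℕ) :
    (dpts n N a b X).card = (pts N a b (X / n)).card := by
  rw [dpts_eq hn hnN, card_image_of_injective _ (inj_mul hn)]

lemma sum_dpts {n N : ℕ} (hn : 0 < n) (hnN : (n : ℤ) ≡ 1 [ZMOD N]) (a b : ℤ) (X : ℕ) (g : ℤ × ℤ → ℝ)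
    (hg : ∀ P : ℤ × ℤ, g ((n : ℤ) * P.1, (n : ℤ) * P.2) = - g P) :
    ∑ P ∈ dpts n N a b X, g P = - ∑ P ∈ pts N a b (X / n), g P := by
  rw [dpts_eq hn hnN, sum_image (fun P _ Q _ h => inj_mul hn h), ← sum_neg_distrib]
  exact sum_congr rfl fun P _ => hg P

lemma split (n N : ℕ) (a b : ℤ) (X : ℕ) (g : ℤ × ℤ → ℝ) :
    ∑ P ∈ pts N a b X, g P = ∑ P ∈ bpts n N a b X, g P + ∑ P ∈ dpts n N a b X, g P := by
  rw [bpts, dpts, add_comm, sum_filter_add_sum_filter_not]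

lemma card_split (n N : ℕ) (a b : ℤ) (X : ℕ) :
    (pts N a b X).card = (bpts n N a b X).card + (dpts n N a b X).card := by
  rw [bpts, dpts, add_comm, card_filter_add_card_filter_not]

lemma bpts_mono {n N : ℕ} {a b : ℤ} {X Y : ℕ} (h : X ≤ Y) : bpts n N a b X ⊆ bpts n N a b Y :=
  filter_subset_filter _ (pts_mono h)

/-- the recursion -/
lemma step {n N : ℕ} (hn : 0 < n) (hnN : (n : ℤ) ≡ 1 [ZMOD N]) (a b : ℤ) (X : ℕ) (g : ℤ × ℤ → ℝ)
    (hg : ∀ P : ℤ × ℤ, g ((n : ℤ) * P.1, (n : ℤ) * P.2) = - g P) (hg1 : ∀ P, |g P| ≤ 1) :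
    |∑ P ∈ pts N a b X, g P| ≤ (pts N a b X).card - 2 * (pts N a b (X / n)).card +
      (pts N a b (X / n / n)).card + |∑ P ∈ pts N a b (X / n / n), g P| := by
  have h1 := split n N a b X g
  have h2 := split n N a b (X / n) g
  rw [sum_dpts hn hnN a b X g hg] at h1
  rw [sum_dpts hn hnN a b (X / n) g hg] at h2
  have hsub : bpts n N a b (X / n) ⊆ bpts n N a b X := bpts_mono (Nat.div_le_self _ _)
  have h3 : ∑ P ∈ bpts n N a b X, g P =
      ∑ P ∈ bpts n N a b X \ bpts n N a b (X / n), g P + ∑ P ∈ bpts n N a b (X / n), g P :=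
    (sum_sdiff hsub).symm
  have h4 : ∑ P ∈ pts N a b X, g P =
      ∑ P ∈ bpts n N a b X \ bpts n N a b (X / n), g P + ∑ P ∈ pts N a b (X / n / n), g P := by
    rw [h1, h2, h3]; ring
  have h5 : |∑ P ∈ bpts n N a b X \ bpts n N a b (X / n), g P| ≤
      ((bpts n N a b X).card : ℝ) - (bpts n N a b (X / n)).card := by
    refine (abs_sum_le_sum_abs _ _).trans ((sum_le_sum fun P _ => hg1 P).trans ?_)
    rw [sum_const, nsmul_eq_mul, mul_one, card_sdiff_of_subset hsub, Nat.cast_sub (card_le_card hsub)]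
  have c1 := card_split n N a b X
  have c2 := card_split n N a b (X / n)
  rw [card_dpts hn hnN] at c1 c2
  have c1' : ((pts N a b X).card : ℝ) = (bpts n N a b X).card + (pts N a b (X / n)).card := by
    exact_mod_cast c1
  have c2' : ((pts N a b (X / n)).card : ℝ) = (bpts n N a b (X / n)).card + (pts N a b (X / n / n)).card := by
    exact_mod_cast c2
  rw [h4]
  refine (abs_add_le _ _).trans ?_
  linarith

end Pool.Agent.Helper80.OD
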