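import Pool.Agent.Helper80.OD.Basic

/-! # The number of points of a translated lattice, and the bound (helper80) -/

set_option autoImplicit false
set_option maxHeartbeats 1000000

open Finset

namespace Pool.Agent.Helper80.OD

/-- the integers `|u| ≤ X`, `u ≡ a` modulo `N` -/
noncomputable def line (N : ℕ) (a : ℤ) (X : ℕ) : Finset ℤ :=
  (Icc (-(X : ℤ)) X).filter (fun u => u ≡ a [ZMOD N])

lemma pts_eq (N : ℕ) (a b : ℤ) (X : ℕ) : pts N a b X = line N a X ×ˢ line N b X := by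
  ext P
  simp only [pts, line, mem_filter, mem_product]
  tauto

lemma line_card {N : ℕ} (hN : 0 < N) (a : ℤ) (X : ℕ) :
    |((line N a X).card : ℝ) - 2 * X / N| ≤ 2 := by
  have hN' : (0 : ℤ) < N := by exact_mod_cast hN
  have hNr : (0 : ℝ) < N := by exact_mod_cast hN
  have hN1 : (1 : ℝ) ≤ N := by exact_mod_cast hN
  have h0 : line N a X = (Ioc (-(X : ℤ) - 1) X).filter (fun u => u ≡ a [ZMOD (N : ℤ)]) := by
    ext u
    simp only [line, mem_filter, mem_Icc, mem_Ioc]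
    constructor
    · rintro ⟨⟨h1, h2⟩, h3⟩; exact ⟨⟨by omega, h2⟩, h3⟩
    · rintro ⟨⟨h1, h2⟩, h3⟩; exact ⟨⟨by omega, h2⟩, h3⟩
  have h1 := Int.Ioc_filter_modEq_card (-(X : ℤ) - 1) X hN' a
  rw [← h0] at h1
  set p : ℤ := ⌊((X : ℤ) - a) / ((N : ℤ) : ℚ)⌋ with hp
  set q : ℤ := ⌊(((-(X : ℤ) - 1 : ℤ) : ℚ) - a) / ((N : ℤ) : ℚ)⌋ with hq
  have hNq : (0 : ℚ) < ((N : ℤ) : ℚ) := by exact_mod_cast hN
  have hle : q ≤ p := by
    apply Int.floor_le_floor
    apply div_le_div_of_nonneg_right _ hNq.le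
    push_cast
    have : (0 : ℚ) ≤ X := by positivity
    linarith
  have h2 : ((line N a X).card : ℤ) = p - q := by
    rw [h1]
    exact max_eq_left (sub_nonneg.2 hle)
  have a1 := Int.floor_le (((X : ℤ) - a) / ((N : ℤ) : ℚ))
  have a2 := Int.lt_floor_add_one (((X : ℤ) - a) / ((N : ℤ) : ℚ))
  have a3 := Int.floor_le ((((-(X : ℤ) - 1 : ℤ) : ℚ) - a) / ((N : ℤ) : ℚ))
  have a4 := Int.lt_floor_add_one ((((-(X : ℤ) - 1 : ℤ) : ℚ) - a) / ((N : ℤ) : ℚ))
  rw [← hp] at a1 a2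
  rw [← hq] at a3 a4
  have e : (((X : ℤ) - a) / ((N : ℤ) : ℚ)) - ((((-(X : ℤ) - 1 : ℤ) : ℚ) - a) / ((N : ℤ) : ℚ)) =
      2 * X / N + 1 / N := by
    push_cast
    field_simp
    ring
  have hN1q : (1 : ℚ) ≤ N := by exact_mod_cast hN
  have e1 : (1 : ℚ) / N ≤ 1 := by rw [div_le_one (by linarith)]; exact hN1q
  have e2 : (0 : ℚ) ≤ 1 / N := by positivity
  have h3 : |((line N a X).card : ℚ) - 2 * X / N| ≤ 2 := by
    have h4 : ((line N a X).card : ℚ) = (p : ℚ) - q := by exact_mod_cast h2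
    rw [h4, abs_le]
    constructor <;> linarith
  have h5 : (((|((line N a X).card : ℚ) - 2 * X / N| : ℚ)) : ℝ) ≤ ((2 : ℚ) : ℝ) := by exact_mod_cast h3
  push_cast at h5
  exact h5

lemma pts_card {N : ℕ} (hN : 0 < N) (a b : ℤ) (X : ℕ) :
    |((pts N a b X).card : ℝ) - 4 * (X : ℝ) ^ 2 / (N : ℝ) ^ 2| ≤ 12 * ((X : ℝ) + 1) := by
  rw [pts_eq, card_product, Nat.cast_mul]
  have h1 := line_card hN a X
  have h2 := line_card hN b X
  set x : ℝ := ((line N a X).card : ℝ)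
  set y : ℝ := ((line N b X).card : ℝ)
  have hNr : (1 : ℝ) ≤ N := by exact_mod_cast hN
  have hN0 : (0 : ℝ) < N := by linarith
  set t : ℝ := 2 * X / N with ht
  have ht0 : 0 ≤ t := by positivity
  have ht1 : t ≤ 2 * X := by
    rw [ht, div_le_iff₀ hN0]
    nlinarith [(Nat.cast_nonneg X : (0 : ℝ) ≤ X)]
  have e : (4 : ℝ) * X ^ 2 / N ^ 2 = t * t := by
    rw [ht]; field_simp; ring
  have e2 : x * y - 4 * X ^ 2 / N ^ 2 = (x - t) * (y - t) + t * (x - t) + t * (y - t) := by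
    rw [e]; ring
  rw [e2]
  have hX : (0 : ℝ) ≤ X := Nat.cast_nonneg X
  calc |(x - t) * (y - t) + t * (x - t) + t * (y - t)|
      ≤ |x - t| * |y - t| + t * |x - t| + t * |y - t| := by
        refine (abs_add_le _ _).trans ?_
        refine (add_le_add_left (abs_add_le _ _) _).trans ?_
        rw [abs_mul, abs_mul, abs_mul, abs_of_nonneg ht0]
    _ ≤ 2 * 2 + t * 2 + t * 2 := by
        gcongr
    _ ≤ 12 * (X + 1) := by nlinarith

lemma alg_id (X n N : ℝ) (hn : n ≠ 0) :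
    4 * X ^ 2 / N ^ 2 - 2 * (4 * (X / n) ^ 2 / N ^ 2) + 4 * (X / n ^ 2) ^ 2 / N ^ 2 +
          (n ^ 2 - 1) / (n ^ 2 + 1) * (4 * (X / n ^ 2) ^ 2 / N ^ 2) =
      (n ^ 2 - 1) / (n ^ 2 + 1) * (4 * X ^ 2 / N ^ 2) := by
  obtain ⟨A, hA⟩ : ∃ A : ℝ, A = 4 * X ^ 2 / N ^ 2 := ⟨_, rfl⟩
  have e1 : 4 * (X / n) ^ 2 / N ^ 2 = A / n ^ 2 := by rw [hA, div_pow]; ring
  have e2 : 4 * (X / n ^ 2) ^ 2 / N ^ 2 = A / n ^ 4 := by rw [hA, div_pow, ← pow_mul]; ring
  rw [e1, e2, ← hA]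
  have hnn : n ^ 2 + 1 ≠ 0 := by positivity
  field_simp
  ring

/-- the bound for the full sum -/
theorem main {n N : ℕ} (hn : 2 ≤ n) (hN : 0 < N) (hnN : (n : ℤ) ≡ 1 [ZMOD N]) (a b : ℤ) (g : ℤ × ℤ → ℝ)
    (hg : ∀ P : ℤ × ℤ, g ((n : ℤ) * P.1, (n : ℤ) * P.2) = - g P) (hg1 : ∀ P, |g P| ≤ 1) (X : ℕ) :
    |∑ P ∈ pts N a b X, g P| ≤ ((n : ℝ) ^ 2 - 1) / ((n : ℝ) ^ 2 + 1) * (4 * (X : ℝ) ^ 2 / (N : ℝ) ^ 2) + 400 * ((X : ℝ) + 1) := by
  have hn0 : 0 < n := by omega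
  have hn2 : (2 : ℝ) ≤ n := by exact_mod_cast hn
  have hN1 : (1 : ℝ) ≤ N := by exact_mod_cast hN
  have hN0 : (0 : ℝ) < N := by linarith
  set κ : ℝ := ((n : ℝ) ^ 2 - 1) / ((n : ℝ) ^ 2 + 1) with hκ
  have hκ0 : 0 ≤ κ := by
    apply div_nonneg <;> nlinarith
  have hκ1 : κ ≤ 1 := by
    rw [hκ, div_le_one (by positivity)]; linarith
  induction X using Nat.strong_induction_on with
  | _ X ih =>
    rcases Nat.eq_zero_or_pos X with hX | hX
    · subst hX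
      have h1 : |∑ P ∈ pts N a b 0, g P| ≤ (pts N a b 0).card := by
        refine (abs_sum_le_sum_abs _ _).trans ((sum_le_sum fun P _ => hg1 P).trans ?_)
        rw [sum_const, nsmul_eq_mul, mul_one]
      have h2 := (abs_le.1 (pts_card hN a b 0)).2
      have h3 : ((pts N a b 0).card : ℝ) ≤ 12 := by
        rw [Nat.cast_zero] at h2
        linarith [h2, show (4 : ℝ) * 0 ^ 2 / (N : ℝ) ^ 2 = 0 by simp]
      rw [Nat.cast_zero]
      have h4 : κ * (4 * (0 : ℝ) ^ 2 / (N : ℝ) ^ 2) = 0 := by simp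
      rw [h4]
      linarith
    · have hX1 : (1 : ℝ) ≤ X := by exact_mod_cast hX
      have hlt : X / n / n < X := by
        exact lt_of_le_of_lt (Nat.div_le_self _ _) (Nat.div_lt_self hX (by omega))
      have h1 := step hn0 hnN a b X g hg hg1
      have h2 := ih _ hlt
      have c0 := abs_le.1 (pts_card hN a b X)
      have c1 := abs_le.1 (pts_card hN a b (X / n))
      have c2 := abs_le.1 (pts_card hN a b (X / n / n))
      set Y : ℝ := ((X / n : ℕ) : ℝ) with hY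
      set Z : ℝ := ((X / n / n : ℕ) : ℝ) with hZ
      have hY1 : Y ≤ X / n := by rw [hY]; exact Nat.cast_div_le
      have hY2 : X / n - 1 ≤ Y := by
        have := Nat.lt_div_mul_add (a := X) hn0
        have h3 : (X : ℝ) < Y * n + n := by rw [hY]; exact_mod_cast this
        rw [sub_le_iff_le_add, div_le_iff₀ (by linarith)]
        linarith
      have hY0 : 0 ≤ Y := by rw [hY]; positivity
      have hZ0 : 0 ≤ Z := by rw [hZ]; positivity
      have hZ1 : Z ≤ X / n ^ 2 := by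
        have h3 : Z ≤ Y / n := by rw [hZ, hY]; exact Nat.cast_div_le
        refine h3.trans ?_
        rw [div_le_iff₀ (by linarith)]
        refine hY1.trans (le_of_eq ?_)
        field_simp
      have h4n : (4 : ℝ) ≤ (n : ℝ) ^ 2 := by nlinarith
      -- quadratic terms
      have q1 : (X / n : ℝ) ^ 2 - 2 * (X / n) ≤ Y ^ 2 := by
        rcases le_or_gt (X / n : ℝ) 1 with h4 | h4
        · have : (X / n : ℝ) ^ 2 - 2 * (X / n) ≤ 0 := by
            have h5 : (0 : ℝ) ≤ X / n := by positivity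
            nlinarith
          nlinarith
        · nlinarith
      have q2 : Z ^ 2 ≤ (X / n ^ 2 : ℝ) ^ 2 := pow_le_pow_left₀ hZ0 hZ1 2
      have hNN : (1 : ℝ) ≤ (N : ℝ) ^ 2 := one_le_pow₀ hN1
      have r1 : 4 * Y ^ 2 / N ^ 2 ≥ 4 * (X / n : ℝ) ^ 2 / N ^ 2 - 8 * X := by
        have h6 : 4 * ((X / n : ℝ) ^ 2 - 2 * (X / n)) / N ^ 2 ≤ 4 * Y ^ 2 / N ^ 2 := by
          gcongr
        have h7 : 4 * (2 * (X / n : ℝ)) / N ^ 2 ≤ 8 * X := by
          rw [div_le_iff₀ (by positivity)]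
          have h8 : (X / n : ℝ) ≤ X := by
            rw [div_le_iff₀ (by linarith)]; nlinarith
          nlinarith
        have h9 : 4 * ((X / n : ℝ) ^ 2 - 2 * (X / n)) / N ^ 2 =
            4 * (X / n : ℝ) ^ 2 / N ^ 2 - 4 * (2 * (X / n : ℝ)) / N ^ 2 := by ring
        linarith
      have r2 : 4 * Z ^ 2 / N ^ 2 ≤ 4 * (X / n ^ 2 : ℝ) ^ 2 / N ^ 2 := by gcongr
      have r3 : κ * (4 * Z ^ 2 / N ^ 2) ≤ κ * (4 * (X / n ^ 2 : ℝ) ^ 2 / N ^ 2) :=
        mul_le_mul_of_nonneg_left r2 hκ0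
      have id1 := alg_id (X : ℝ) n N (by linarith)
      rw [← hκ] at id1
      have lY : Y ≤ X := by rw [hY]; exact_mod_cast Nat.div_le_self X n
      have lZ : Z ≤ X / 4 := hZ1.trans (div_le_div_of_nonneg_left (Nat.cast_nonneg X) (by norm_num) h4n)
      have f1 := c0.2
      have f2 := c1.1
      have f3 := c2.2
      clear c0 c1 c2 ih hκ hY hZ hY1 hY2 hZ1 q1 q2 hg1 hg hnN hκ0 hκ1
      linarith

end Pool.Agent.Helper80.OD
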