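import Pool.Agent.Helper80.OD.Zeta

/-! # The logarithmic average (helper80) -/

set_option autoImplicit false
set_option maxHeartbeats 1000000

open Finset Filter Topology

namespace Pool.Agent.Helper80.OD

lemma wt_mul {n : ℕ} (P : ℤ × ℤ) : wt ((n : ℤ) * P.1, (n : ℤ) * P.2) = wt P / (n : ℝ) ^ 2 := by
  rw [wt, wt, nrm_mul]
  push_cast
  rw [mul_pow, one_div, one_div, mul_inv, div_eq_mul_inv, mul_comm]

lemma wt_zero : wt (0, 0) = 0 := by simp [wt, nrm]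

/-- the sum over the primitive points -/
noncomputable def G (g : ℤ × ℤ → ℝ) (X : ℕ) : ℝ := ∑ P ∈ prim X, g P * wt P

/-- the weight of the primitive points -/
noncomputable def pw (X : ℕ) : ℝ := ∑ P ∈ prim X, wt P

lemma T_eq (g : ℤ × ℤ → ℝ) (hg : ∀ n : ℕ, 1 ≤ n → ∀ P : ℤ × ℤ, g ((n : ℤ) * P.1, (n : ℤ) * P.2) = lam n * g P)
    (X : ℕ) : ∑ P ∈ sq X, g P * wt P = ∑ n ∈ Icc 1 X, (lam n : ℝ) / (n : ℝ) ^ 2 * G g (X / n) := by
  rw [decomp (fun P => g P * wt P) (by simp [wt_zero])]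
  refine sum_congr rfl fun n hn => ?_
  rw [G, mul_sum]
  refine sum_congr rfl fun P _ => ?_
  rw [hg n (mem_Icc.1 hn).1, wt_mul]
  ring

lemma tot_eq' (X : ℕ) : tot X = ∑ n ∈ Icc 1 X, 1 / (n : ℝ) ^ 2 * pw (X / n) := by
  rw [tot, decomp wt wt_zero]
  refine sum_congr rfl fun n hn => ?_
  rw [pw, mul_sum]
  refine sum_congr rfl fun P _ => ?_
  rw [wt_mul]
  ring

lemma pw_diff {X n : ℕ} (hn : 1 ≤ n) (hX : 1 ≤ X) : pw X - pw (X / n) ≤ 8 * (1 + Real.log n) := by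
  refine le_trans ?_ (tot_diff hn hX)
  have hle : X / n ≤ X := Nat.div_le_self _ _
  have h1 : pw X - pw (X / n) = ∑ P ∈ prim X \ prim (X / n), wt P := by
    rw [pw, pw, ← sum_sdiff (prim_mono hle)]; ring
  have h2 : tot X - tot (X / n) = ∑ P ∈ sq X \ sq (X / n), wt P := by
    rw [tot, tot, ← sum_sdiff (sq_mono hle)]; ring
  rw [h1, h2]
  refine sum_le_sum_of_subset_of_nonneg ?_ fun P _ _ => wt_nonneg P
  intro P hP
  rw [prim, prim, Finset.mem_sdiff, mem_filter, mem_filter] at hP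
  rw [Finset.mem_sdiff]
  exact ⟨hP.1.1, fun h => hP.2 ⟨h, hP.1.2⟩⟩

lemma pw_mono {X n : ℕ} : pw (X / n) ≤ pw X :=
  sum_le_sum_of_subset_of_nonneg (prim_mono (Nat.div_le_self _ _)) fun P _ _ => wt_nonneg P

lemma pw_nonneg (X : ℕ) : 0 ≤ pw X := sum_nonneg fun P _ => wt_nonneg P

lemma G_diff (g : ℤ × ℤ → ℝ) (hg1 : ∀ P, |g P| ≤ 1) {X n : ℕ} :
    |G g (X / n) - G g X| ≤ pw X - pw (X / n) := by
  have hle : X / n ≤ X := Nat.div_le_self _ _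
  have h1 : G g (X / n) - G g X = - ∑ P ∈ prim X \ prim (X / n), g P * wt P := by
    rw [G, G, ← sum_sdiff (prim_mono hle)]; ring
  have h2 : pw X - pw (X / n) = ∑ P ∈ prim X \ prim (X / n), wt P := by
    rw [pw, pw, ← sum_sdiff (prim_mono hle)]; ring
  rw [h1, h2, abs_neg]
  refine (abs_sum_le_sum_abs _ _).trans (sum_le_sum fun P _ => ?_)
  rw [abs_mul, abs_of_nonneg (wt_nonneg P)]
  exact mul_le_of_le_one_left (wt_nonneg P) (hg1 P)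

lemma G_le (g : ℤ × ℤ → ℝ) (hg1 : ∀ P, |g P| ≤ 1) (X : ℕ) : |G g X| ≤ pw X := by
  refine (abs_sum_le_sum_abs _ _).trans (sum_le_sum fun P _ => ?_)
  rw [abs_mul, abs_of_nonneg (wt_nonneg P)]
  exact mul_le_of_le_one_left (wt_nonneg P) (hg1 P)

/-- the error -/
noncomputable def E0 : ℝ := ∑' n : ℕ, 16 * (1 / (n : ℝ) ^ (3 / 2 : ℝ))

lemma E0_summable : Summable fun n : ℕ => 16 * (1 / (n : ℝ) ^ (3 / 2 : ℝ)) :=
  (Real.summable_one_div_nat_rpow.2 (by norm_num)).mul_left 16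

lemma err_le {n : ℕ} (hn : 1 ≤ n) : 1 / (n : ℝ) ^ 2 * (8 * (1 + Real.log n)) ≤ 16 * (1 / (n : ℝ) ^ (3 / 2 : ℝ)) := by
  have hn' : (1 : ℝ) ≤ n := by exact_mod_cast hn
  have hn0 : (0 : ℝ) < n := by linarith
  have h1 : Real.log n ≤ (n : ℝ) ^ (1 / 2 : ℝ) / (1 / 2) := Real.log_le_rpow_div hn0.le (by norm_num)
  have h2 : Real.log (n : ℝ) = 2 * Real.log ((n : ℝ) ^ (1 / 2 : ℝ)) := by
    rw [Real.log_rpow hn0]; ring
  have h3 : Real.log ((n : ℝ) ^ (1 / 2 : ℝ)) ≤ (n : ℝ) ^ (1 / 2 : ℝ) - 1 :=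
    Real.log_le_sub_one_of_pos (Real.rpow_pos_of_pos hn0 _)
  have h4 : 1 + Real.log n ≤ 2 * (n : ℝ) ^ (1 / 2 : ℝ) := by linarith
  have h5 : (n : ℝ) ^ 2 = (n : ℝ) ^ (3 / 2 : ℝ) * (n : ℝ) ^ (1 / 2 : ℝ) := by
    rw [← Real.rpow_add hn0, ← Real.rpow_natCast]
    norm_num
  have h6 : 0 < (n : ℝ) ^ (3 / 2 : ℝ) := Real.rpow_pos_of_pos hn0 _
  have h7 : 0 < (n : ℝ) ^ (1 / 2 : ℝ) := Real.rpow_pos_of_pos hn0 _
  obtain ⟨s, hs⟩ : ∃ s : ℝ, s = (n : ℝ) ^ (3 / 2 : ℝ) := ⟨_, rfl⟩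
  obtain ⟨t, ht⟩ : ∃ t : ℝ, t = (n : ℝ) ^ (1 / 2 : ℝ) := ⟨_, rfl⟩
  rw [← hs] at h5 h6
  rw [← ht] at h4 h5 h7
  rw [h5, ← hs]
  have h8 : 1 / (s * t) * (8 * (1 + Real.log n)) ≤ 1 / (s * t) * (8 * (2 * t)) := by
    gcongr
  refine h8.trans (le_of_eq ?_)
  field_simp
  norm_num

lemma err_sum (X : ℕ) (c : ℕ → ℝ) (hc : ∀ n ∈ Icc 1 X, c n ≤ 8 * (1 + Real.log n)) :
    ∑ n ∈ Icc 1 X, 1 / (n : ℝ) ^ 2 * c n ≤ E0 := by
  have h1 : ∑ n ∈ Icc 1 X, 1 / (n : ℝ) ^ 2 * c n ≤ ∑ n ∈ Icc 1 X, 16 * (1 / (n : ℝ) ^ (3 / 2 : ℝ)) := by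
    refine sum_le_sum fun n hn => ?_
    exact (mul_le_mul_of_nonneg_left (hc n hn) (by positivity)).trans (err_le (mem_Icc.1 hn).1)
  exact h1.trans (E0_summable.sum_le_tsum _ fun n _ => by positivity)

/-- partial sums -/
noncomputable def LX (X : ℕ) : ℝ := ∑ n ∈ Icc 1 X, (lam n : ℝ) / (n : ℝ) ^ 2

/-- partial sums -/
noncomputable def ZX (X : ℕ) : ℝ := ∑ n ∈ Icc 1 X, 1 / (n : ℝ) ^ 2

lemma T_le (g : ℤ × ℤ → ℝ) (hg : ∀ n : ℕ, 1 ≤ n → ∀ P : ℤ × ℤ, g ((n : ℤ) * P.1, (n : ℤ) * P.2) = lam n * g P)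
    (hg1 : ∀ P, |g P| ≤ 1) {X : ℕ} (hX : 1 ≤ X) : |∑ P ∈ sq X, g P * wt P| ≤ |LX X| * pw X + E0 := by
  have h1 : ∑ P ∈ sq X, g P * wt P =
      LX X * G g X + ∑ n ∈ Icc 1 X, (lam n : ℝ) / (n : ℝ) ^ 2 * (G g (X / n) - G g X) := by
    rw [T_eq g hg, LX, sum_mul, ← sum_add_distrib]
    exact sum_congr rfl fun n _ => by ring
  rw [h1]
  refine (abs_add_le _ _).trans (add_le_add ?_ ?_)
  · rw [abs_mul]
    exact mul_le_mul_of_nonneg_left (G_le g hg1 X) (abs_nonneg _)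
  · refine (abs_sum_le_sum_abs _ _).trans ?_
    refine le_trans (sum_le_sum fun n hn => ?_) (err_sum X (fun n => pw X - pw (X / n))
      fun n hn => pw_diff (mem_Icc.1 hn).1 hX)
    rw [abs_mul, abs_div, abs_of_nonneg (by positivity : (0 : ℝ) ≤ (n : ℝ) ^ 2)]
    apply mul_le_mul _ (G_diff g hg1) (abs_nonneg _) (by positivity)
    exact div_le_div_of_nonneg_right (abs_lam_le n) (by positivity)

lemma tot_ge {X : ℕ} (hX : 1 ≤ X) : ZX X * pw X - E0 ≤ tot X := by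
  have h1 : tot X = ZX X * pw X - ∑ n ∈ Icc 1 X, 1 / (n : ℝ) ^ 2 * (pw X - pw (X / n)) := by
    rw [tot_eq', ZX, sum_mul, ← sum_sub_distrib]
    exact sum_congr rfl fun n _ => by ring
  have h2 := err_sum X (fun n => pw X - pw (X / n)) fun n hn => pw_diff (mem_Icc.1 hn).1 hX
  rw [h1]
  linarith

lemma tendsto_LX : Tendsto LX atTop (𝓝 (∑' n : ℕ, fL n)) := by
  have h1 : Summable fun n : ℕ => fL n := sum_fL.of_norm
  have h2 := (h1.hasSum.tendsto_sum_nat).comp (tendsto_add_atTop_nat 1)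
  refine h2.congr fun X => ?_
  show ∑ n ∈ range (X + 1), (lam n : ℝ) / (n : ℝ) ^ 2 = LX X
  rw [LX, range_eq_Ico, sum_eq_sum_Ico_succ_bot (Nat.succ_pos X)]
  simp only [lam, Nat.cast_zero, Int.cast_zero, if_true, zero_div, zero_add]
  rfl

lemma tendsto_ZX : Tendsto ZX atTop (𝓝 (Real.pi ^ 2 / 6)) := by
  have h2 := (hasSum_zeta_two.tendsto_sum_nat).comp (tendsto_add_atTop_nat 1)
  refine h2.congr fun X => ?_
  show ∑ n ∈ range (X + 1), 1 / (n : ℝ) ^ 2 = ZX X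
  rw [ZX, range_eq_Ico, sum_eq_sum_Ico_succ_bot (Nat.succ_pos X)]
  simp only [Nat.cast_zero, ne_eq, OfNat.ofNat_ne_zero, not_false_eq_true, zero_pow, div_zero, zero_add]
  rfl

lemma tendsto_tot : Tendsto tot atTop atTop := by
  have h1 : Tendsto (fun X : ℕ => 8 * Real.log ((X + 1 : ℕ) : ℝ)) atTop atTop :=
    (Real.tendsto_log_atTop.comp (tendsto_natCast_atTop_atTop.comp (tendsto_add_atTop_nat 1))).const_mul_atTop
      (by norm_num)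
  refine tendsto_atTop_mono (fun X => ?_) h1
  rw [tot_eq]
  have := log_add_one_le_harmonic X
  linarith

/-- the bound for logarithmic averages -/
theorem log_main (g : ℤ × ℤ → ℝ)
    (hg : ∀ n : ℕ, 1 ≤ n → ∀ P : ℤ × ℤ, g ((n : ℤ) * P.1, (n : ℤ) * P.2) = lam n * g P)
    (hg1 : ∀ P, |g P| ≤ 1) (ε : ℝ) (hε : 0 < ε) :
    ∃ X₀ : ℕ, ∀ X : ℕ, X₀ ≤ X → |∑ P ∈ sq X, g P * wt P| ≤ (2 / 5 + ε) * tot X := by
  have hpi : (0 : ℝ) < Real.pi := Real.pi_pos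
  have hL : ∑' n : ℕ, fL n = Real.pi ^ 2 / 15 := by
    have h := sum_lam
    have h6 : (Real.pi ^ 2 / 6 : ℝ) ≠ 0 := by positivity
    rw [← mul_left_inj' h6, h]
    ring
  have hR : Tendsto (fun X => |LX X| / ZX X) atTop (𝓝 (2 / 5)) := by
    have h1 := (tendsto_LX.abs).div tendsto_ZX (by positivity)
    rw [hL, abs_of_pos (by positivity)] at h1
    have h2 : Real.pi ^ 2 / 15 / (Real.pi ^ 2 / 6) = 2 / 5 := by
      field_simp
      norm_num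
    rw [h2] at h1
    exact h1
  have e1 := hR.eventually (gt_mem_nhds (show (2 / 5 : ℝ) < 2 / 5 + ε / 2 by linarith))
  have e2 := tendsto_tot.eventually_ge_atTop (((2 / 5 + ε / 2) * E0 + E0) / (ε / 2))
  have e3 := tendsto_ZX.eventually (lt_mem_nhds (show (0 : ℝ) < Real.pi ^ 2 / 6 by positivity))
  obtain ⟨X₀, h⟩ := ((e1.and (e2.and e3)).and (eventually_ge_atTop 1)).exists_forall_of_atTop
  refine ⟨X₀, fun X hX => ?_⟩
  obtain ⟨⟨h1, h2, h3⟩, h4⟩ := h X hX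
  have a1 := T_le g hg hg1 h4
  have a2 := tot_ge h4
  have hE0 : 0 ≤ E0 := tsum_nonneg fun n => by positivity
  have a3 : pw X ≤ (tot X + E0) / ZX X := by
    rw [le_div_iff₀ h3]; linarith
  have a4 : |LX X| * pw X ≤ (|LX X| / ZX X) * (tot X + E0) := by
    have := mul_le_mul_of_nonneg_left a3 (abs_nonneg (LX X))
    calc |LX X| * pw X ≤ |LX X| * ((tot X + E0) / ZX X) := this
      _ = _ := by ring
  have htot : 0 ≤ tot X := sum_nonneg fun P _ => wt_nonneg P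
  have a5 : (|LX X| / ZX X) * (tot X + E0) ≤ (2 / 5 + ε / 2) * (tot X + E0) :=
    mul_le_mul_of_nonneg_right h1.le (by linarith)
  rw [div_le_iff₀ (by linarith)] at h2
  nlinarith

end Pool.Agent.Helper80.OD
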