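import Pool.Agent.Helper80.OD.Basic

/-! # Logarithmic averages (helper80) -/

set_option autoImplicit false
set_option maxHeartbeats 1000000

open Finset

namespace Pool.Agent.Helper80.OD

/-- the square -/
noncomputable def sq (X : ℕ) : Finset (ℤ × ℤ) := Icc (-(X : ℤ)) X ×ˢ Icc (-(X : ℤ)) X

/-- the max norm -/
def nrm (P : ℤ × ℤ) : ℕ := max P.1.natAbs P.2.natAbs

lemma mem_sq {X : ℕ} {P : ℤ × ℤ} : P ∈ sq X ↔ nrm P ≤ X := by
  simp only [sq, nrm, mem_product, mem_Icc, max_le_iff]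
  omega

lemma nrm_mul (n : ℕ) (P : ℤ × ℤ) : nrm ((n : ℤ) * P.1, (n : ℤ) * P.2) = n * nrm P := by
  simp only [nrm, Int.natAbs_mul, Int.natAbs_natCast]
  exact (Nat.mul_max_mul_left _ _ _)

/-- the weight -/
noncomputable def wt (P : ℤ × ℤ) : ℝ := 1 / (nrm P : ℝ) ^ 2

lemma wt_nonneg (P : ℤ × ℤ) : 0 ≤ wt P := by unfold wt; positivity

lemma card_sq (X : ℕ) : ((sq X).card : ℝ) = (2 * X + 1) ^ 2 := by
  rw [sq, card_product, Int.card_Icc]
  have : ((X : ℤ) + 1 - -(X : ℤ)).toNat = 2 * X + 1 := by omega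
  rw [this]
  push_cast
  ring

lemma sq_mono {X Y : ℕ} (h : X ≤ Y) : sq X ⊆ sq Y := by
  intro P hP
  rw [mem_sq] at hP ⊢
  omega

/-- total weight -/
noncomputable def tot (X : ℕ) : ℝ := ∑ P ∈ sq X, wt P

lemma tot_eq (X : ℕ) : tot X = 8 * (harmonic X : ℝ) := by
  induction X with
  | zero =>
    have : sq 0 = {(0, 0)} := by
      ext P
      rw [mem_sq, mem_singleton, nrm]
      constructor
      · intro h
        have h1 : P.1.natAbs = 0 := by omega
        have h2 : P.2.natAbs = 0 := by omega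
        exact Prod.ext (Int.natAbs_eq_zero.1 h1) (Int.natAbs_eq_zero.1 h2)
      · rintro rfl; simp
    simp [tot, this, wt, nrm]
  | succ X ih =>
    have hsub : sq X ⊆ sq (X + 1) := sq_mono (Nat.le_succ X)
    have h1 : tot (X + 1) = ∑ P ∈ sq (X + 1) \ sq X, wt P + tot X := (sum_sdiff hsub).symm
    have h2 : ∀ P ∈ sq (X + 1) \ sq X, wt P = 1 / ((X : ℝ) + 1) ^ 2 := by
      intro P hP
      rw [mem_sdiff, mem_sq, mem_sq] at hP
      have : nrm P = X + 1 := by omega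
      rw [wt, this]
      push_cast
      rfl
    rw [h1, sum_congr rfl h2, sum_const, nsmul_eq_mul, card_sdiff_of_subset hsub,
      Nat.cast_sub (card_le_card hsub), card_sq, card_sq, ih, harmonic_succ]
    push_cast
    have hX : (X : ℝ) + 1 ≠ 0 := by positivity
    field_simp
    ring

lemma tot_diff {X n : ℕ} (hn : 1 ≤ n) (hX : 1 ≤ X) : tot X - tot (X / n) ≤ 8 * (1 + Real.log n) := by
  rw [tot_eq, tot_eq]
  have h1 : (harmonic X : ℝ) ≤ 1 + Real.log X := harmonic_le_one_add_log X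
  have h2 : Real.log ((X / n : ℕ) + 1 : ℕ) ≤ harmonic (X / n) := log_add_one_le_harmonic (X / n)
  have hn' : (0 : ℝ) < n := by exact_mod_cast hn
  have hX' : (0 : ℝ) < X := by exact_mod_cast hX
  have h3 : (X : ℝ) / n ≤ ((X / n : ℕ) + 1 : ℕ) := by
    rw [div_le_iff₀ hn']
    have := Nat.lt_div_mul_add (a := X) (b := n) (by omega)
    have h4 : (X : ℝ) < (X / n : ℕ) * n + n := by exact_mod_cast this
    push_cast
    linarith
  have h5 : Real.log X - Real.log n ≤ Real.log ((X / n : ℕ) + 1 : ℕ) := by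
    rw [← Real.log_div hX'.ne' hn'.ne']
    exact Real.log_le_log (by positivity) h3
  linarith

/-- primitive points -/
noncomputable def prim (X : ℕ) : Finset (ℤ × ℤ) := (sq X).filter (fun P => Int.gcd P.1 P.2 = 1)

lemma prim_mono {X Y : ℕ} (h : X ≤ Y) : prim X ⊆ prim Y := filter_subset_filter _ (sq_mono h)

lemma decomp (F : ℤ × ℤ → ℝ) (hF : F (0, 0) = 0) (X : ℕ) :
    ∑ P ∈ sq X, F P = ∑ n ∈ Icc 1 X, ∑ Q ∈ prim (X / n), F ((n : ℤ) * Q.1, (n : ℤ) * Q.2) := by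
  have h0 : ∑ P ∈ sq X, F P = ∑ P ∈ (sq X).filter (fun P => P ≠ (0, 0)), F P := by
    rw [← sum_filter_add_sum_filter_not (sq X) (fun P => P ≠ (0, 0)) F]
    have : ∑ P ∈ (sq X).filter (fun P => ¬ P ≠ (0, 0)), F P = 0 := by
      refine sum_eq_zero fun P hP => ?_
      have := (mem_filter.1 hP).2
      push Not at this
      rw [this, hF]
    rw [this, add_zero]
  have hmaps : ∀ P ∈ (sq X).filter (fun P => P ≠ (0, 0)), Int.gcd P.1 P.2 ∈ Icc 1 X := by
    intro P hP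
    obtain ⟨h1, h2⟩ := mem_filter.1 hP
    rw [mem_sq, nrm] at h1
    rw [mem_Icc]
    have hg0 : Int.gcd P.1 P.2 ≠ 0 := by
      intro h
      rw [Int.gcd_eq_zero_iff] at h
      exact h2 (Prod.ext h.1 h.2)
    refine ⟨Nat.one_le_iff_ne_zero.2 hg0, ?_⟩
    by_cases h3 : P.1 = 0
    · have h4 : P.2 ≠ 0 := fun h => h2 (Prod.ext h3 h)
      have h5 : Int.gcd P.1 P.2 ∣ P.2.natAbs := Int.gcd_dvd_natAbs_right _ _
      have := Nat.le_of_dvd (Int.natAbs_pos.2 h4) h5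
      omega
    · have h5 : Int.gcd P.1 P.2 ∣ P.1.natAbs := Int.gcd_dvd_natAbs_left _ _
      have := Nat.le_of_dvd (Int.natAbs_pos.2 h3) h5
      omega
  rw [h0, ← sum_fiberwise_of_maps_to hmaps]
  refine sum_congr rfl fun n hn => ?_
  have hn1 : 1 ≤ n := (mem_Icc.1 hn).1
  have hinj : ∀ P ∈ prim (X / n), ∀ Q ∈ prim (X / n), (fun P : ℤ × ℤ => ((n : ℤ) * P.1, (n : ℤ) * P.2)) P =
      (fun P : ℤ × ℤ => ((n : ℤ) * P.1, (n : ℤ) * P.2)) Q → P = Q := fun P _ Q _ h => inj_mul hn1 h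
  rw [← sum_image (f := F) hinj]
  refine sum_congr ?_ fun _ _ => rfl
  ext P
  simp only [mem_filter, mem_image, prim, mem_sq]
  constructor
  · rintro ⟨⟨h1, h2⟩, h3⟩
    obtain ⟨u, hu⟩ : (n : ℤ) ∣ P.1 := by rw [← h3]; exact Int.gcd_dvd_left ..
    obtain ⟨v, hv⟩ : (n : ℤ) ∣ P.2 := by rw [← h3]; exact Int.gcd_dvd_right ..
    refine ⟨(u, v), ⟨?_, ?_⟩, Prod.ext hu.symm hv.symm⟩
    · have hP : P = ((n : ℤ) * (u, v).1, (n : ℤ) * (u, v).2) := Prod.ext hu hv
      rw [hP, nrm_mul] at h1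
      rw [Nat.le_div_iff_mul_le (by omega), mul_comm]
      exact h1
    · rw [hu, hv, Int.gcd_mul_left, Int.natAbs_natCast] at h3
      have : n * Int.gcd u v = n * 1 := by rw [h3, mul_one]
      exact Nat.eq_of_mul_eq_mul_left (by omega) this
  · rintro ⟨Q, ⟨h1, h2⟩, rfl⟩
    rw [Nat.le_div_iff_mul_le (by omega), mul_comm] at h1
    refine ⟨⟨by rw [nrm_mul]; exact h1, ?_⟩, ?_⟩
    · intro h
      simp only [Prod.mk.injEq, mul_eq_zero, Nat.cast_eq_zero] at h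
      have hQ1 : Q.1 = 0 := h.1.resolve_left (by omega)
      have hQ2 : Q.2 = 0 := h.2.resolve_left (by omega)
      rw [hQ1, hQ2] at h2
      simp at h2
    · simp only
      rw [Int.gcd_mul_left, h2, mul_one, Int.natAbs_natCast]

end Pool.Agent.Helper80.OD
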