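import Pool.Agent.Helper80.OD.Log

/-! # The sum of `λ(n) / n²` (helper80) -/

set_option autoImplicit false
set_option maxHeartbeats 1000000

open Finset

namespace Pool.Agent.Helper80.OD

/-- `n ↦ λ(n) / n²` -/
noncomputable def fL : ℕ →*₀ ℝ where
  toFun n := (lam n : ℝ) / (n : ℝ) ^ 2
  map_zero' := by simp [lam]
  map_one' := by simp [lam_one]
  map_mul' a b := by
    push_cast
    rw [lam_mul]
    push_cast
    rw [mul_pow, mul_div_mul_comm]

/-- `n ↦ 1 / n ^ k` -/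
noncomputable def fz (k : ℕ) (hk : k ≠ 0) : ℕ →*₀ ℝ where
  toFun n := 1 / (n : ℝ) ^ k
  map_zero' := by simp [hk]
  map_one' := by simp
  map_mul' a b := by
    push_cast
    rw [mul_pow, one_div, one_div, one_div, mul_inv]

lemma sum_fz2 : Summable fun n : ℕ => ‖fz 2 two_ne_zero n‖ := by
  have h : Summable fun n : ℕ => 1 / (n : ℝ) ^ 2 := Real.summable_one_div_nat_pow.2 (by norm_num)
  refine h.congr fun n => ?_
  show _ = ‖1 / (n : ℝ) ^ 2‖
  rw [Real.norm_of_nonneg (by positivity)]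

lemma sum_fz4 : Summable fun n : ℕ => ‖fz 4 four_ne_zero n‖ := by
  have h : Summable fun n : ℕ => 1 / (n : ℝ) ^ 4 := Real.summable_one_div_nat_pow.2 (by norm_num)
  refine h.congr fun n => ?_
  show _ = ‖1 / (n : ℝ) ^ 4‖
  rw [Real.norm_of_nonneg (by positivity)]

lemma abs_lam_le (n : ℤ) : |(lam n : ℝ)| ≤ 1 := by exact_mod_cast lam_abs_le n

lemma sum_fL : Summable fun n : ℕ => ‖fL n‖ := by
  refine Summable.of_nonneg_of_le (fun n => norm_nonneg _) (fun n => ?_) sum_fz2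
  show ‖(lam n : ℝ) / (n : ℝ) ^ 2‖ ≤ ‖1 / (n : ℝ) ^ 2‖
  rw [norm_div, norm_div, norm_one]
  exact div_le_div_of_nonneg_right (abs_lam_le n) (norm_nonneg _)

lemma lam_prime {p : ℕ} (hp : p.Prime) : lam p = -1 := by
  have h0 : (p : ℤ) ≠ 0 := by exact_mod_cast hp.ne_zero
  rw [lam, if_neg h0, Int.natAbs_natCast, ArithmeticFunction.cardFactors_apply_prime hp, pow_one]

/-- the value of the series -/
theorem sum_lam : (∑' n : ℕ, fL n) * (Real.pi ^ 2 / 6) = Real.pi ^ 4 / 90 := by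
  have e1 := EulerProduct.eulerProduct_completely_multiplicative_hasProd sum_fL
  have e2 := EulerProduct.eulerProduct_completely_multiplicative_hasProd sum_fz2
  have e4 := EulerProduct.eulerProduct_completely_multiplicative_hasProd sum_fz4
  have e12 := e1.mul e2
  have h : (fun p : Nat.Primes => (1 - fL p)⁻¹ * (1 - fz 2 two_ne_zero p)⁻¹) =
      fun p : Nat.Primes => (1 - fz 4 four_ne_zero p)⁻¹ := by
    funext p
    have hp := p.2
    have hp2 : (2 : ℝ) ≤ (p : ℕ) := by exact_mod_cast hp.two_le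
    show (1 - (lam (p : ℕ) : ℝ) / ((p : ℕ) : ℝ) ^ 2)⁻¹ * (1 - 1 / ((p : ℕ) : ℝ) ^ 2)⁻¹ =
      (1 - 1 / ((p : ℕ) : ℝ) ^ 4)⁻¹
    rw [lam_prime hp, ← mul_inv]
    congr 1
    push_cast
    have : ((p : ℕ) : ℝ) ≠ 0 := by linarith
    field_simp
    ring
  rw [h] at e12
  have h3 := e12.unique e4
  have h2 : ∑' n : ℕ, fz 2 two_ne_zero n = Real.pi ^ 2 / 6 := hasSum_zeta_two.tsum_eq
  have h4 : ∑' n : ℕ, fz 4 four_ne_zero n = Real.pi ^ 4 / 90 := hasSum_zeta_four.tsum_eq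
  rw [h2, h4] at h3
  exact h3

end Pool.Agent.Helper80.OD
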